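import Pool.Agent.Helper38.DT.Defs
import Pool.Agent.Helper45.Untwist

/-!
# DT6b : descent of conjugacy to constant maps, given three rational preperiodic points
-/

set_option autoImplicit false
set_option linter.style.haveILetI false

namespace Pool.Agent.Helper38.DT

open Polynomial Pool.Agent.Helper93.RatODE Pool.Agent.Helper45.FR Pool.Agent.Helper45.M8

/-- conjugation of a rational function by a matrix -/
theorem exists_conj_matrix {K : Type} [Field K] {P Q : K[X]} {d : ℕ} (h : IsRatD P Q d)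
    (M : Matrix (Fin 2) (Fin 2) K) (hM : M.det ≠ 0) :
    ∃ P₁ Q₁ : K[X], IsRatD P₁ Q₁ d ∧ ∀ (S : Type) [Field S] [Algebra K S] (v : S × S),
      phi P Q d (mp (M.map (algebraMap K S)) v) =
        mp (M.map (algebraMap K S)) (phi P₁ Q₁ d v) := by
  obtain ⟨hcop, hP, hQ, htop⟩ := h
  rw [Matrix.det_fin_two] at hM
  obtain ⟨m00, h00⟩ : ∃ m, M 0 0 = m := ⟨_, rfl⟩
  obtain ⟨m01, h01⟩ : ∃ m, M 0 1 = m := ⟨_, rfl⟩
  obtain ⟨m10, h10⟩ : ∃ m, M 1 0 = m := ⟨_, rfl⟩
  obtain ⟨m11, h11⟩ : ∃ m, M 1 1 = m := ⟨_, rfl⟩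
  rw [h00, h01, h10, h11] at hM
  obtain ⟨δ, hδ⟩ : ∃ δ, m00 * m11 - m01 * m10 = δ := ⟨_, rfl⟩
  rw [hδ] at hM
  set U : K[X] := C m00 * X + C m01 with hU
  set W : K[X] := C m10 * X + C m11 with hW
  have dU : U.natDegree ≤ 1 := natDegree_linear_le
  have dW : W.natDegree ≤ 1 := natDegree_linear_le
  have hUW : IsCoprime U W := by
    refine ⟨C (-(δ⁻¹ * m10)), C (δ⁻¹ * m00), ?_⟩
    have : C (-(δ⁻¹ * m10)) * U + C (δ⁻¹ * m00) * W = C (δ⁻¹ * δ) := by
      rw [hU, hW, ← hδ]
      simp only [C_mul, C_neg, C_sub]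
      ring
    rw [this, inv_mul_cancel₀ hM, C_1]
  have htopUW : U.coeff 1 ≠ 0 ∨ W.coeff 1 ≠ 0 := by
    by_contra hcon
    push Not at hcon
    simp only [hU, hW, coeff_add, coeff_C_mul, coeff_X_one, mul_one, coeff_C_succ, add_zero] at hcon
    rw [hcon.1, hcon.2, zero_mul, mul_zero, sub_zero] at hδ
    exact hM hδ.symm
  obtain ⟨RP, hRP⟩ : ∃ RP : K[X], hev P d U W = RP := ⟨_, rfl⟩
  obtain ⟨RQ, hRQ⟩ : ∃ RQ : K[X], hev Q d U W = RQ := ⟨_, rfl⟩
  have dRP : RP.natDegree ≤ d := by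
    have := hev_natDegree P d dU dW
    rwa [mul_one, hRP] at this
  have dRQ : RQ.natDegree ≤ d := by
    have := hev_natDegree Q d dU dW
    rwa [mul_one, hRQ] at this
  have cRR : IsCoprime RP RQ := by
    rw [← hRP, ← hRQ]
    exact hev_isCoprime hcop hP hQ htop hUW
  have tRR : RP.coeff d ≠ 0 ∨ RQ.coeff d ≠ 0 := by
    have := hev_coeff_ne hcop hP hQ htop dU dW htopUW
    rwa [mul_one, hRP, hRQ] at this
  have eRP : ∀ (S : Type) [Field S] [Algebra K S] (u w : S), hev RP d u w =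
      hev P d (algebraMap K S m00 * u + algebraMap K S m01 * w)
        (algebraMap K S m10 * u + algebraMap K S m11 * w) := by
    intro S _ _ u w
    have h3 := hev_comp P d dU dW u w
    rw [mul_one, hRP, hU, hW, hev_linear, hev_linear] at h3
    exact h3
  have eRQ : ∀ (S : Type) [Field S] [Algebra K S] (u w : S), hev RQ d u w =
      hev Q d (algebraMap K S m00 * u + algebraMap K S m01 * w)
        (algebraMap K S m10 * u + algebraMap K S m11 * w) := by
    intro S _ _ u w
    have h3 := hev_comp Q d dU dW u w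
    rw [mul_one, hRQ, hU, hW, hev_linear, hev_linear] at h3
    exact h3
  refine ⟨C (δ⁻¹ * m11) * RP + C (-(δ⁻¹ * m01)) * RQ, C (-(δ⁻¹ * m10)) * RP + C (δ⁻¹ * m00) * RQ,
    ⟨?_, ?_, ?_, ?_⟩, ?_⟩
  · obtain ⟨a, b, hab⟩ := cRR
    refine ⟨a * C m00 + b * C m10, a * C m01 + b * C m11, ?_⟩
    have hδ1 : C δ⁻¹ * (C m00 * C m11 - C m01 * C m10) = (1 : K[X]) := by
      rw [← C_mul, ← C_mul, ← C_sub, hδ, ← C_mul, inv_mul_cancel₀ hM, C_1]
    simp only [C_mul, C_neg]
    linear_combination (a * RP + b * RQ) * hδ1 + hab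
  · exact natDegree_add_le_of_degree_le ((natDegree_C_mul_le _ _).trans dRP)
      ((natDegree_C_mul_le _ _).trans dRQ)
  · exact natDegree_add_le_of_degree_le ((natDegree_C_mul_le _ _).trans dRP)
      ((natDegree_C_mul_le _ _).trans dRQ)
  · by_contra hcon
    push Not at hcon
    obtain ⟨c1, c2⟩ := hcon
    rw [coeff_add, coeff_C_mul, coeff_C_mul] at c1 c2
    have hδ1 : δ⁻¹ * (m00 * m11 - m01 * m10) = 1 := by rw [hδ, inv_mul_cancel₀ hM]
    have e1 : RP.coeff d = 0 := by
      linear_combination m00 * c1 + m01 * c2 - RP.coeff d * hδ1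
    have e2 : RQ.coeff d = 0 := by
      linear_combination m10 * c1 + m11 * c2 - RQ.coeff d * hδ1
    rcases tRR with h | h
    · exact h e1
    · exact h e2
  · intro S _ _ v
    have hδ1 : algebraMap K S δ⁻¹ * (algebraMap K S m00 * algebraMap K S m11 -
        algebraMap K S m01 * algebraMap K S m10) = 1 := by
      rw [← map_mul, ← map_mul, ← map_sub, hδ, ← map_mul, inv_mul_cancel₀ hM, map_one]
    simp only [phi, mp, Matrix.map_apply, h00, h01, h10, h11]
    rw [← eRP, ← eRQ, hev_add, hev_add, hev_C_mul, hev_C_mul, hev_C_mul, hev_C_mul]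
    simp only [map_mul, map_neg]
    refine Prod.ext ?_ ?_
    · simp only
      linear_combination (-hev RP d v.1 v.2) * hδ1
    · simp only
      linear_combination (-hev RQ d v.1 v.2) * hδ1

theorem constConj_of_pair {k L : Type} [Field k] [Field L] [Algebra k L] [Infinite L]
    {P Q : L[X]} {d : ℕ} (A : Matrix (Fin 2) (Fin 2) L)
    (P' Q' : k[X]) (c : L) (hA : A.det ≠ 0) (hc : c ≠ 0) (hPQ : IsRatD P' Q' d)
    (h : ∀ v : L × L, phi P Q d (mp A v) = c • mp A (phi P' Q' d v)) :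
    ConstConj k P Q d := by
  refine constConj_of_vec A P' Q' c hA hc hPQ.degF hPQ.degG ?_ hPQ.top ?_
  · rw [← coe_mapRingHom]
    exact hPQ.cop.map _
  · intro v
    have h1 := h (v 0, v 1)
    have h2 := congrArg Prod.fst h1
    have h3 := congrArg Prod.snd h1
    ext i
    fin_cases i
    · simp only [Fin.zero_eta, Pi.smul_apply, smul_eq_mul]
      rw [mulVec_zero' A (fv _ _ d v)]
      simp only [fv, mulVec_zero' A v, mulVec_one' A v, Matrix.cons_val_zero, Matrix.cons_val_one]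
      exact h2
    · simp only [Fin.mk_one, Pi.smul_apply, smul_eq_mul]
      rw [mulVec_one' A (fv _ _ d v)]
      simp only [fv, mulVec_zero' A v, mulVec_one' A v, Matrix.cons_val_zero, Matrix.cons_val_one]
      exact h3

theorem pair_of_constConj {k L : Type} [Field k] [Field L] [Algebra k L]
    {P Q : L[X]} {d : ℕ} {A : Matrix (Fin 2) (Fin 2) L}
    {P' Q' : k[X]} {c : L}
    (h1 : (hev P d (C (A 0 0) * X + C (A 0 1)) (C (A 1 0) * X + C (A 1 1)) : L[X]) =
        C c * (C (A 0 0) * P'.map (algebraMap k L) + C (A 0 1) * Q'.map (algebraMap k L)))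
    (h2 : (hev Q d (C (A 0 0) * X + C (A 0 1)) (C (A 1 0) * X + C (A 1 1)) : L[X]) =
        C c * (C (A 1 0) * P'.map (algebraMap k L) + C (A 1 1) * Q'.map (algebraMap k L)))
    (v : L × L) : phi P Q d (mp A v) = c • mp A (phi P' Q' d v) := by
  have e := conj_aeval (L := L) h1 h2 ![v.1, v.2]
  rw [← fv_eq_aeval, ← fv_eq_aeval] at e
  have e0 := congrFun e 0
  have e1 := congrFun e 1
  simp only [fv, Pi.smul_apply, smul_eq_mul, mulVec_zero', mulVec_one', Matrix.cons_val_zero,
    Matrix.cons_val_one, Matrix.map_apply, Algebra.algebraMap_self, RingHom.id_apply] at e0 e1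
  exact Prod.ext e0 e1

/-- DT6b : descent of conjugacy to constant maps, given three rational preperiodic points. -/
theorem dt6b {k L E : Type} [Field k] [IsAlgClosed k] [Field L] [Algebra k L] [Field E]
    [Algebra k E] [Algebra L E] [IsScalarTower k L E] (F G : L[X]) (d : ℕ) (hd : 2 ≤ d)
    (hFG : IsRatD F G d) (hc : ConstConj k (F.map (algebraMap L E)) (G.map (algebraMap L E)) d)
    (x : ℕ → L) (hx : RatOrbit F G x 2) : ConstConj k F G d := by
  classical
  haveI : Infinite k := IsAlgClosed.instInfinite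
  haveI : Infinite L := Infinite.of_injective _ (algebraMap k L).injective
  obtain ⟨A, P', Q', c, hA, hc, hP', hQ', hcop, htop, h1, h2⟩ := hc
  have hcop' : IsCoprime P' Q' := (Polynomial.isCoprime_map (algebraMap k E)).1 hcop
  have hconj := pair_of_constConj h1 h2
  -- evaluation over `L`
  have hevL : ∀ (R : L[X]) (u w : L), hev (R.map (algebraMap L E)) d (algebraMap L E u)
      (algebraMap L E w) = algebraMap L E (hev R d u w) := by
    intro R u w
    rw [hev_map_poly]
    have := hev_map (Algebra.ofId L E) R d u w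
    rw [Algebra.ofId_apply, Algebra.ofId_apply, Algebra.ofId_apply] at this
    exact this.symm
  have hevk : ∀ (R : k[X]) (u w : L), hev R d (algebraMap L E u)
      (algebraMap L E w) = algebraMap L E (hev R d u w) := by
    intro R u w
    exact (hev_map (IsScalarTower.toAlgHom k L E) R d u w).symm
  -- the adjugate
  let A' : Matrix (Fin 2) (Fin 2) E := !![A 1 1, -A 0 1; -A 1 0, A 0 0]
  have hAA' : ∀ v : E × E, mp A (mp A' v) = A.det • v := by
    intro v
    rw [Matrix.det_fin_two]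
    refine Prod.ext ?_ ?_
    · change A 0 0 * (A 1 1 * v.1 + -A 0 1 * v.2) + A 0 1 * (-A 1 0 * v.1 + A 0 0 * v.2) = _ * v.1
      ring
    · change A 1 0 * (A 1 1 * v.1 + -A 0 1 * v.2) + A 1 1 * (-A 1 0 * v.1 + A 0 0 * v.2) = _ * v.2
      ring
  have hA'A : ∀ v : E × E, mp A' (mp A v) = A.det • v := by
    intro v
    rw [Matrix.det_fin_two]
    refine Prod.ext ?_ ?_
    · change A 1 1 * (A 0 0 * v.1 + A 0 1 * v.2) + -A 0 1 * (A 1 0 * v.1 + A 1 1 * v.2) = _ * v.1
      ring
    · change -A 1 0 * (A 0 0 * v.1 + A 0 1 * v.2) + A 0 0 * (A 1 0 * v.1 + A 1 1 * v.2) = _ * v.2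
      ring
  -- the points
  let Z : ℕ → E × E := fun i => (algebraMap L E (x i), 1)
  have hZ0 : ∀ i, Z i ≠ 0 := fun i h => one_ne_zero (congrArg Prod.snd h)
  have hZphi : ∀ i, phi (F.map (algebraMap L E)) (G.map (algebraMap L E)) d (Z i) =
      algebraMap L E (G.eval (x i)) • Z (i + 1) := by
    intro i
    have e3 : ∀ R : L[X], R.natDegree ≤ d →
        hev (R.map (algebraMap L E)) d (algebraMap L E (x i)) (1 : E) =
          algebraMap L E (R.eval (x i)) := by
      intro R hR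
      rw [← map_one (algebraMap L E), hevL, hev_eq_eval R d hR _ 1 one_ne_zero, one_pow, one_mul,
        div_one]
    refine Prod.ext ?_ ?_
    · change hev _ d _ _ = algebraMap L E (G.eval (x i)) * algebraMap L E (x (i + 1))
      rw [e3 F hFG.degF, ← map_mul, hx.step i, mul_div_cancel₀ _ (hx.ne i)]
    · change hev _ d _ _ = algebraMap L E (G.eval (x i)) * 1
      rw [e3 G hFG.degG, mul_one]
  let u : ℕ → E × E := fun i => mp A' (Z i)
  have hu : ∀ i, mp A (u i) = A.det • Z i := fun i => hAA' _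
  have hu0 : ∀ i, u i ≠ 0 := by
    intro i h
    have h3 := hu i
    rw [h] at h3
    have h4 : mp A (0 : E × E) = 0 := by simp [mp]
    rw [h4] at h3
    exact (smul_ne_zero hA (hZ0 i)) h3.symm
  have hstep : ∀ i, ∃ s : E, s ≠ 0 ∧ phi P' Q' d (u i) = s • u (i + 1) := by
    intro i
    have h3 := hconj (u i)
    rw [hu, phi_smul, hZphi] at h3
    have h4 := congrArg (mp A') h3
    rw [mp_smul, mp_smul, mp_smul, hA'A, smul_smul, smul_smul] at h4
    have hg : algebraMap L E (G.eval (x i)) ≠ 0 := (_root_.map_ne_zero _).2 (hx.ne i)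
    have hcA : c * A.det ≠ 0 := mul_ne_zero hc hA
    refine ⟨(c * A.det)⁻¹ * (A.det ^ d * algebraMap L E (G.eval (x i))), ?_, ?_⟩
    · exact mul_ne_zero (inv_ne_zero hcA) (mul_ne_zero (pow_ne_zero _ hA) hg)
    · rw [mul_smul]
      change _ = _ • _ • mp A' (Z (i + 1))
      rw [h4, smul_smul, inv_mul_cancel₀ hcA, one_smul]
  have hiter : ∀ n i, ∃ s : E, s ≠ 0 ∧ (phi P' Q' d)^[n] (u i) = s • u (i + n) := by
    intro n
    induction n with
    | zero => intro i; exact ⟨1, one_ne_zero, by simp⟩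
    | succ n ih =>
      intro i
      obtain ⟨s, hs, hs'⟩ := ih i
      obtain ⟨r, hr, hr'⟩ := hstep (i + n)
      refine ⟨s ^ d * r, mul_ne_zero (pow_ne_zero _ hs) hr, ?_⟩
      rw [Function.iterate_succ_apply', hs', phi_smul, hr', smul_smul, add_assoc]
  -- the points are constant
  have hw : ∀ i, ∃ w : k × k, ∃ s : E, s ≠ 0 ∧
      mp A (algebraMap k E w.1, algebraMap k E w.2) = s • Z i := by
    intro i
    have hui : (u i) ≠ 0 := hu0 i
    by_cases hi : (u i).2 = 0
    · have hi1 : (u i).1 ≠ 0 := fun h => hui (Prod.ext h hi)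
      refine ⟨(1, 0), (u i).1⁻¹ * A.det, mul_ne_zero (inv_ne_zero hi1) hA, ?_⟩
      have e1 : ((algebraMap k E (1, 0).1, algebraMap k E ((1 : k), (0 : k)).2) : E × E) =
          (u i).1⁻¹ • u i := by
        refine Prod.ext ?_ ?_
        · change algebraMap k E 1 = (u i).1⁻¹ * (u i).1
          rw [map_one, inv_mul_cancel₀ hi1]
        · change algebraMap k E 0 = (u i).1⁻¹ * (u i).2
          rw [map_zero, hi, mul_zero]
      rw [e1, mp_smul, hu, smul_smul]
    · obtain ⟨m, n, hmn, hmn'⟩ : ∃ m n : ℕ, m < n ∧ x (i + m) = x (i + n) := by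
        have hfin : (Set.range fun j => x (i + j)).Finite :=
          hx.fin.subset (by rintro _ ⟨j, rfl⟩; exact ⟨i + j, rfl⟩)
        have hninj : ¬ Function.Injective (fun j => x (i + j)) := by
          intro hinj
          exact Set.infinite_range_of_injective hinj hfin
        rw [Function.not_injective_iff] at hninj
        obtain ⟨a, b, hab, hne⟩ := hninj
        rcases lt_or_gt_of_ne hne with h | h
        · exact ⟨a, b, h, hab⟩
        · exact ⟨b, a, h, hab.symm⟩
      have hcr : cr ((phi P' Q' d)^[m] (u i)) ((phi P' Q' d)^[n] (u i)) = 0 := by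
        obtain ⟨s, hs, hs'⟩ := hiter m i
        obtain ⟨r, hr, hr'⟩ := hiter n i
        rw [hs', hr', cr_smul_left, cr_smul_right]
        have : u (i + m) = u (i + n) := by
          change mp A' (algebraMap L E (x (i + m)), 1) = mp A' (algebraMap L E (x (i + n)), 1)
          rw [hmn']
        rw [this, cr_self, mul_zero, mul_zero]
      have halg : IsAlgebraic k ((u i).1 / (u i).2) :=
        ⟨coinc P' Q' d m n, coinc_ne_zero hcop' hP' hQ' htop hd hmn,
          coinc_aeval (u i) hi m n hcr⟩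
      obtain ⟨κ, hκ⟩ := mem_range_of_isAlgebraic (k := k) _ halg
      refine ⟨(κ, 1), (u i).2⁻¹ * A.det, mul_ne_zero (inv_ne_zero hi) hA, ?_⟩
      have e1 : ((algebraMap k E (κ, (1 : k)).1, algebraMap k E (κ, (1 : k)).2) : E × E) =
          (u i).2⁻¹ • u i := by
        refine Prod.ext ?_ ?_
        · change algebraMap k E κ = (u i).2⁻¹ * (u i).1
          rw [hκ, div_eq_inv_mul]
        · change algebraMap k E 1 = (u i).2⁻¹ * (u i).2
          rw [map_one, inv_mul_cancel₀ hi]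
      rw [e1, mp_smul, hu, smul_smul]
  choose w s hs hws using hw
  have hcrw : ∀ i j, x i ≠ x j → cr (w i) (w j) ≠ 0 := by
    intro i j hij h0
    apply hij
    have e1 := cr_mp A (algebraMap k E (w i).1, algebraMap k E (w i).2)
      (algebraMap k E (w j).1, algebraMap k E (w j).2)
    rw [hws, hws, cr_smul_left, cr_smul_right] at e1
    have e2 : cr ((algebraMap k E (w i).1, algebraMap k E (w i).2) : E × E)
        (algebraMap k E (w j).1, algebraMap k E (w j).2) = algebraMap k E (cr (w i) (w j)) := by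
      simp only [cr, map_sub, map_mul]
    have e3 : cr (Z i) (Z j) = algebraMap L E (x i - x j) := by
      simp only [cr, Z, map_sub]; ring
    rw [e2, e3, h0, map_zero, mul_zero] at e1
    rcases mul_eq_zero.1 e1 with h | h
    · exact absurd h (hs i)
    · rcases mul_eq_zero.1 h with h | h
      · exact absurd h (hs j)
      · exact sub_eq_zero.1 ((map_eq_zero _).1 h)
  have x01 : x 0 ≠ x 1 := fun h => by
    have := hx.inj 0 1 (by norm_num) (by norm_num) h; omega
  have x02 : x 0 ≠ x 2 := fun h => by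
    have := hx.inj 0 2 (by norm_num) (by norm_num) h; omega
  have x12 : x 1 ≠ x 2 := fun h => by
    have := hx.inj 1 2 (by norm_num) (by norm_num) h; omega
  have D02 := hcrw 0 2 x02
  have D01 := hcrw 0 1 x01
  have D12 := hcrw 1 2 x12
  obtain ⟨α, hα⟩ : ∃ α, α = cr (w 1) (w 2) / cr (w 0) (w 2) := ⟨_, rfl⟩
  obtain ⟨β, hβ⟩ : ∃ β, β = cr (w 0) (w 1) / cr (w 0) (w 2) := ⟨_, rfl⟩
  have hα0 : α ≠ 0 := by rw [hα]; exact div_ne_zero D12 D02
  have hβ0 : β ≠ 0 := by rw [hβ]; exact div_ne_zero D01 D02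
  have hw1 : α * (w 0).1 + β * (w 2).1 = (w 1).1 := by
    rw [hα, hβ]
    have := D02
    field_simp
    simp only [cr]; ring
  have hw2 : α * (w 0).2 + β * (w 2).2 = (w 1).2 := by
    rw [hα, hβ]
    have := D02
    field_simp
    simp only [cr]; ring
  -- the matrix over `k`
  obtain ⟨M, hM⟩ : ∃ M : Matrix (Fin 2) (Fin 2) k,
      M = !![β * (w 2).1, α * (w 0).1; β * (w 2).2, α * (w 0).2] := ⟨_, rfl⟩
  have hM00 : M 0 0 = β * (w 2).1 := by rw [hM]; rfl
  have hM01 : M 0 1 = α * (w 0).1 := by rw [hM]; rfl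
  have hM10 : M 1 0 = β * (w 2).2 := by rw [hM]; rfl
  have hM11 : M 1 1 = α * (w 0).2 := by rw [hM]; rfl
  have hMdet : M.det ≠ 0 := by
    rw [Matrix.det_fin_two, hM00, hM01, hM10, hM11]
    have : β * (w 2).1 * (α * (w 0).2) - α * (w 0).1 * (β * (w 2).2) =
        -(α * β * cr (w 0) (w 2)) := by simp only [cr]; ring
    rw [this]
    exact neg_ne_zero.2 (mul_ne_zero (mul_ne_zero hα0 hβ0) D02)
  obtain ⟨P₁, Q₁, hPQ₁, hMconj⟩ := exists_conj_matrix ⟨hcop', hP', hQ', htop⟩ M hMdet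
  -- the matrix over `L`
  have n02 : x 0 - x 2 ≠ 0 := sub_ne_zero.2 x02
  have n01 : x 0 - x 1 ≠ 0 := sub_ne_zero.2 x01
  have n12 : x 1 - x 2 ≠ 0 := sub_ne_zero.2 x12
  obtain ⟨a', ha'⟩ : ∃ a' : L, a' = (x 1 - x 2) / (x 0 - x 2) := ⟨_, rfl⟩
  obtain ⟨b', hb'⟩ : ∃ b' : L, b' = (x 0 - x 1) / (x 0 - x 2) := ⟨_, rfl⟩
  have ha0 : a' ≠ 0 := by rw [ha']; exact div_ne_zero n12 n02
  have hb0 : b' ≠ 0 := by rw [hb']; exact div_ne_zero n01 n02
  obtain ⟨A₁, hA₁⟩ : ∃ A₁ : Matrix (Fin 2) (Fin 2) L,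
      A₁ = !![b' * x 2, a' * x 0; b', a'] := ⟨_, rfl⟩
  have hA00 : A₁ 0 0 = b' * x 2 := by rw [hA₁]; rfl
  have hA01 : A₁ 0 1 = a' * x 0 := by rw [hA₁]; rfl
  have hA10 : A₁ 1 0 = b' := by rw [hA₁]; rfl
  have hA11 : A₁ 1 1 = a' := by rw [hA₁]; rfl
  have hA₁det : A₁.det ≠ 0 := by
    rw [Matrix.det_fin_two, hA00, hA01, hA10, hA11]
    have : b' * x 2 * a' - a' * x 0 * b' = -(a' * b' * (x 0 - x 2)) := by ring
    rw [this]
    exact neg_ne_zero.2 (mul_ne_zero (mul_ne_zero ha0 hb0) n02)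
  -- relations
  have r0a := congrArg Prod.fst (hws 0)
  have r0b := congrArg Prod.snd (hws 0)
  have r1a := congrArg Prod.fst (hws 1)
  have r1b := congrArg Prod.snd (hws 1)
  have r2a := congrArg Prod.fst (hws 2)
  have r2b := congrArg Prod.snd (hws 2)
  simp only [mp, Z, Prod.smul_mk, smul_eq_mul, mul_one] at r0a r0b r1a r1b r2a r2b
  have hw1' := congrArg (algebraMap k E) hw1
  have hw2' := congrArg (algebraMap k E) hw2
  rw [map_add, map_mul, map_mul] at hw1' hw2'
  have q1 : algebraMap k E α * s 0 + algebraMap k E β * s 2 = s 1 := by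
    linear_combination r1b - algebraMap k E α * r0b - algebraMap k E β * r2b +
      A 1 0 * hw1' + A 1 1 * hw2'
  have q2 : algebraMap k E α * (s 0 * algebraMap L E (x 0)) +
      algebraMap k E β * (s 2 * algebraMap L E (x 2)) = s 1 * algebraMap L E (x 1) := by
    linear_combination r1a - algebraMap k E α * r0a - algebraMap k E β * r2a +
      A 0 0 * hw1' + A 0 1 * hw2'
  have n02' : algebraMap L E (x 0) - algebraMap L E (x 2) ≠ 0 := by
    rw [← map_sub]; exact (_root_.map_ne_zero _).2 n02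
  have p1 : algebraMap k E α * s 0 = s 1 * algebraMap L E a' := by
    rw [ha', map_div₀, map_sub, map_sub, ← mul_div_assoc, eq_div_iff n02']
    linear_combination q2 - algebraMap L E (x 2) * q1
  have p2 : algebraMap k E β * s 2 = s 1 * algebraMap L E b' := by
    rw [hb', map_div₀, map_sub, map_sub, ← mul_div_assoc, eq_div_iff n02']
    linear_combination algebraMap L E (x 0) * q1 - q2
  have hAM : ∀ v : E × E, mp A (mp (M.map (algebraMap k E)) v) =
      s 1 • mp (A₁.map (algebraMap L E)) v := by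
    intro v
    refine Prod.ext ?_ ?_
    · simp only [mp, Matrix.map_apply, hM00, hM01, hM10, hM11, hA00, hA01, hA10, hA11, map_mul,
        Prod.smul_mk, smul_eq_mul]
      linear_combination (algebraMap k E β * v.1) * r2a + (algebraMap k E α * v.2) * r0a +
        (algebraMap L E (x 2) * v.1) * p2 + (algebraMap L E (x 0) * v.2) * p1
    · simp only [mp, Matrix.map_apply, hM00, hM01, hM10, hM11, hA00, hA01, hA10, hA11, map_mul,
        Prod.smul_mk, smul_eq_mul]
      linear_combination (algebraMap k E β * v.1) * r2b + (algebraMap k E α * v.2) * r0b +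
        v.1 * p2 + v.2 * p1
  have hs1 := hs 1
  have hconj2 : ∀ v : E × E, phi (F.map (algebraMap L E)) (G.map (algebraMap L E)) d
      (mp (A₁.map (algebraMap L E)) v) =
      ((s 1 ^ d)⁻¹ * (c * s 1)) • mp (A₁.map (algebraMap L E)) (phi P₁ Q₁ d v) := by
    intro v
    have e1 := hconj (mp (M.map (algebraMap k E)) v)
    rw [hMconj E v, hAM, hAM, phi_smul, smul_smul] at e1
    rw [mul_smul, ← e1, smul_smul, inv_mul_cancel₀ (pow_ne_zero _ hs1), one_smul]
  obtain ⟨c₂, hc₂⟩ : ∃ c₂, (s 1 ^ d)⁻¹ * (c * s 1) = c₂ := ⟨_, rfl⟩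
  have hc₂0 : c₂ ≠ 0 := by
    rw [← hc₂]
    exact mul_ne_zero (inv_ne_zero (pow_ne_zero _ hs1)) (mul_ne_zero hc hs1)
  rw [hc₂] at hconj2
  -- descent of identities
  let ι : L × L → E × E := fun v => (algebraMap L E v.1, algebraMap L E v.2)
  have hιmp : ∀ v : L × L, mp (A₁.map (algebraMap L E)) (ι v) = ι (mp A₁ v) := by
    intro v
    simp only [mp, ι, Matrix.map_apply, map_add, map_mul]
  have hιphi : ∀ v : L × L, phi (F.map (algebraMap L E)) (G.map (algebraMap L E)) d (ι v) =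
      ι (phi F G d v) := by
    intro v
    exact Prod.ext (hevL F v.1 v.2) (hevL G v.1 v.2)
  have hιphi' : ∀ v : L × L, phi P₁ Q₁ d (ι v) = ι (phi P₁ Q₁ d v) := by
    intro v
    exact Prod.ext (hevk P₁ v.1 v.2) (hevk Q₁ v.1 v.2)
  have hconj3 : ∀ v : L × L, ι (phi F G d (mp A₁ v)) = c₂ • ι (mp A₁ (phi P₁ Q₁ d v)) := by
    intro v
    rw [← hιphi, ← hιmp, hconj2, hιphi', hιmp]
  obtain ⟨c₃, hc₃⟩ : ∃ c₃ : L, algebraMap L E c₃ = c₂ := by
    have e1 := hconj3 (1, 0)
    have hne : mp A₁ (phi P₁ Q₁ d ((1, 0) : L × L)) ≠ 0 := by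
      intro h0
      have h3 : phi P₁ Q₁ d ((1, 0) : L × L) ≠ 0 :=
        phi_ne_zero hPQ₁.cop hPQ₁.degF hPQ₁.degG hPQ₁.top (by
          intro h; exact one_ne_zero (congrArg Prod.fst h))
      apply h3
      obtain ⟨y, hy⟩ : ∃ y, phi P₁ Q₁ d ((1, 0) : L × L) = y := ⟨_, rfl⟩
      rw [hy] at h0 ⊢
      have g1 := congrArg Prod.fst h0
      have g2 := congrArg Prod.snd h0
      simp only [mp, Prod.fst_zero, Prod.snd_zero] at g1 g2
      have hd1 := hA₁det
      rw [Matrix.det_fin_two] at hd1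
      refine Prod.ext ?_ ?_
      · apply (mul_eq_zero.1 _).resolve_left hd1
        linear_combination A₁ 1 1 * g1 - A₁ 0 1 * g2
      · apply (mul_eq_zero.1 _).resolve_left hd1
        linear_combination A₁ 0 0 * g2 - A₁ 1 0 * g1
    obtain ⟨y, hy⟩ : ∃ y, mp A₁ (phi P₁ Q₁ d ((1, 0) : L × L)) = y := ⟨_, rfl⟩
    rw [hy] at hne e1
    obtain ⟨t, ht⟩ : ∃ t, phi F G d (mp A₁ ((1, 0) : L × L)) = t := ⟨_, rfl⟩
    rw [ht] at e1
    have g1 := congrArg Prod.fst e1
    have g2 := congrArg Prod.snd e1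
    simp only [ι, Prod.smul_mk, smul_eq_mul] at g1 g2
    by_cases hy1 : y.1 = 0
    · have hy2 : y.2 ≠ 0 := fun h => hne (Prod.ext hy1 h)
      refine ⟨t.2 / y.2, ?_⟩
      rw [map_div₀, g2, mul_div_assoc, div_self ((_root_.map_ne_zero _).2 hy2), mul_one]
    · refine ⟨t.1 / y.1, ?_⟩
      rw [map_div₀, g1, mul_div_assoc, div_self ((_root_.map_ne_zero _).2 hy1), mul_one]
  refine constConj_of_pair A₁ P₁ Q₁ c₃ hA₁det ?_ hPQ₁ ?_
  · intro h
    rw [h, map_zero] at hc₃
    exact hc₂0 hc₃.symm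
  · intro v
    have e1 := hconj3 v
    rw [← hc₃] at e1
    have g1 := congrArg Prod.fst e1
    have g2 := congrArg Prod.snd e1
    simp only [ι, Prod.smul_mk, smul_eq_mul] at g1 g2
    rw [← map_mul] at g1 g2
    exact Prod.ext ((algebraMap L E).injective g1) ((algebraMap L E).injective g2)

end Pool.Agent.Helper38.DT
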