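import Pool.Agent.Helper38.DT.Defs
import Pool.Agent.Helper45.Untwist

/-!
# DT7b : purely inseparable maps
-/

set_option autoImplicit false
set_option linter.style.haveILetI false

namespace Pool.Agent.Helper38.DT

open Polynomial Pool.Agent.Helper93.RatODE Pool.Agent.Helper45.FR Pool.Agent.Helper45.M8

/-- DT7b : purely inseparable maps. -/
theorem dt7b {k L : Type} [Field k] [IsAlgClosed k] [Field L] [Algebra k L] (F G : L[X]) (d : ℕ)
    (hd : 2 ≤ d) (_hFG : IsRatD F G d) (hins : PInsep F G d) (x : ℕ → L) (hx : RatOrbit F G x 3) :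
    ConstConj k F G d := by
  classical
  haveI : Infinite k := IsAlgClosed.instInfinite
  haveI : Infinite L := Infinite.of_injective _ (algebraMap k L).injective
  obtain ⟨⟨ν, hν⟩, a, b, c, e, hF, hG⟩ := hins
  haveI : ExpChar L (ringExpChar L) := ringExpChar.expChar L
  have hadd : ∀ u w : L, (u + w) ^ d = u ^ d + w ^ d := by
    intro u w
    rw [hν]
    exact add_pow_expChar_pow u w (ringExpChar L) ν
  have hsub : ∀ u w : L, (u - w) ^ d = u ^ d - w ^ d := by
    intro u w
    rw [hν]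
    exact sub_pow_expChar_pow (p := ringExpChar L) (n := ν) u w
  have hevF : ∀ i, F.eval (x i) = a * x i ^ d + b := by
    intro i; rw [hF]; simp
  have hevG : ∀ i, G.eval (x i) = c * x i ^ d + e := by
    intro i; rw [hG]; simp
  have hdiff : ∀ i j, x (i + 1) - x (j + 1) =
      (a * e - b * c) * (x i - x j) ^ d / (G.eval (x i) * G.eval (x j)) := by
    intro i j
    rw [hx.step, hx.step, div_sub_div _ _ (hx.ne i) (hx.ne j)]
    congr 1
    rw [hevF, hevF, hevG, hevG, hsub]
    ring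
  have hdet : a * e - b * c ≠ 0 := by
    intro h
    have h1 := hdiff 0 1
    rw [h, zero_mul, zero_div, sub_eq_zero] at h1
    have := hx.inj 1 2 (by norm_num) (by norm_num) h1
    omega
  have hcr : ∀ i, crr (x (i + 1)) (x (i + 3)) (x (i + 2)) (x (i + 4)) =
      crr (x i) (x (i + 2)) (x (i + 1)) (x (i + 3)) ^ d := by
    intro i
    unfold crr
    rw [hdiff (i + 3) i, hdiff (i + 1) (i + 2), hdiff (i + 3) (i + 2), hdiff (i + 1) i, div_pow,
      mul_pow, mul_pow]
    have h0 := hx.ne i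
    have h1 := hx.ne (i + 1)
    have h2 := hx.ne (i + 2)
    have h3 := hx.ne (i + 3)
    generalize G.eval (x i) = g0 at *
    generalize G.eval (x (i + 1)) = g1 at *
    generalize G.eval (x (i + 2)) = g2 at *
    generalize G.eval (x (i + 3)) = g3 at *
    generalize (x (i + 3) - x i) ^ d = y0
    generalize (x (i + 1) - x (i + 2)) ^ d = y1
    generalize (x (i + 3) - x (i + 2)) ^ d = y2
    generalize (x (i + 1) - x i) ^ d = y3
    generalize a * e - b * c = D at *
    have e1 : D * y0 / (g3 * g0) * (D * y1 / (g1 * g2)) = D * D / (g0 * g1 * g2 * g3) * (y0 * y1) := by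
      field_simp
    have e2 : D * y2 / (g3 * g2) * (D * y3 / (g1 * g0)) = D * D / (g0 * g1 * g2 * g3) * (y2 * y3) := by
      field_simp
    rw [e1, e2, mul_div_mul_left]
    exact div_ne_zero (mul_ne_zero hdet hdet)
      (mul_ne_zero (mul_ne_zero (mul_ne_zero h0 h1) h2) h3)
  have hcr' : ∀ i, crr (x i) (x (i + 2)) (x (i + 1)) (x (i + 3)) =
      crr (x 0) (x 2) (x 1) (x 3) ^ d ^ i := by
    intro i
    induction i with
    | zero => simp
    | succ i ih =>
      have := hcr i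
      rw [pow_succ, pow_mul, ← ih, ← this]
  -- the cross ratio is algebraic
  have halg : IsAlgebraic k (crr (x 0) (x 2) (x 1) (x 3)) := by
    have hfin : (Set.range fun i => crr (x i) (x (i + 2)) (x (i + 1)) (x (i + 3))).Finite := by
      have h1 : ((fun y : (L × L) × (L × L) => crr y.1.1 y.1.2 y.2.1 y.2.2) ''
          ((Set.range x ×ˢ Set.range x) ×ˢ (Set.range x ×ˢ Set.range x))).Finite :=
        (((hx.fin.prod hx.fin)).prod (hx.fin.prod hx.fin)).image _
      refine h1.subset ?_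
      rintro _ ⟨i, rfl⟩
      exact ⟨((x i, x (i + 2)), (x (i + 1), x (i + 3))),
        ⟨⟨⟨i, rfl⟩, ⟨i + 2, rfl⟩⟩, ⟨⟨i + 1, rfl⟩, ⟨i + 3, rfl⟩⟩⟩, rfl⟩
    have hninj : ¬ Function.Injective
        (fun i => crr (x i) (x (i + 2)) (x (i + 1)) (x (i + 3))) := by
      intro hinj
      exact Set.infinite_range_of_injective hinj hfin
    rw [Function.not_injective_iff] at hninj
    obtain ⟨i, j, hij, hne⟩ := hninj
    replace hij : crr (x i) (x (i + 2)) (x (i + 1)) (x (i + 3)) =
      crr (x j) (x (j + 2)) (x (j + 1)) (x (j + 3)) := hij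
    rw [hcr' i, hcr' j] at hij
    have hne' : d ^ i ≠ d ^ j := fun h => hne (Nat.pow_right_injective hd h)
    refine ⟨X ^ d ^ i - X ^ d ^ j, ?_, ?_⟩
    · intro h0
      have := congrArg (fun q => q.coeff (d ^ i)) h0
      simp only [coeff_sub, coeff_X_pow, if_true, coeff_zero] at this
      rw [if_neg hne', sub_zero] at this
      exact one_ne_zero this
    · rw [map_sub, map_pow, map_pow, aeval_X, hij, sub_self]
  obtain ⟨κ, hκ⟩ := mem_range_of_isAlgebraic (k := k) _ halg
  -- differences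
  have n01 : x 0 - x 1 ≠ 0 := fun h => by
    have := hx.inj 0 1 (by norm_num) (by norm_num) (sub_eq_zero.1 h); omega
  have n02 : x 0 - x 2 ≠ 0 := fun h => by
    have := hx.inj 0 2 (by norm_num) (by norm_num) (sub_eq_zero.1 h); omega
  have n12 : x 1 - x 2 ≠ 0 := fun h => by
    have := hx.inj 1 2 (by norm_num) (by norm_num) (sub_eq_zero.1 h); omega
  have n13 : x 3 - x 1 ≠ 0 := fun h => by
    have := hx.inj 3 1 (by norm_num) (by norm_num) (sub_eq_zero.1 h); omega
  have n23 : x 3 - x 2 ≠ 0 := fun h => by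
    have := hx.inj 3 2 (by norm_num) (by norm_num) (sub_eq_zero.1 h); omega
  have n10 : x 1 - x 0 ≠ 0 := fun h => n01 (by rw [← neg_sub, h, neg_zero])
  have hκ1 : (1 - algebraMap k L κ) * ((x 3 - x 2) * (x 1 - x 0)) =
      (x 3 - x 1) * (x 2 - x 0) := by
    rw [hκ]
    unfold crr
    rw [sub_mul, div_mul_cancel₀ _ (mul_ne_zero n23 n10)]
    ring
  have hκne : κ ≠ 1 := by
    rintro rfl
    rw [map_one, sub_self, zero_mul] at hκ1
    rcases mul_eq_zero.1 hκ1.symm with h | h
    · exact n13 h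
    · exact n02 (by rw [← neg_sub, h, neg_zero])
  -- the matrix
  obtain ⟨a', ha'⟩ : ∃ a' : L, a' = (x 1 - x 2) / (x 0 - x 2) := ⟨_, rfl⟩
  obtain ⟨b', hb'⟩ : ∃ b' : L, b' = (x 0 - x 1) / (x 0 - x 2) := ⟨_, rfl⟩
  have ha0 : a' ≠ 0 := by rw [ha']; exact div_ne_zero n12 n02
  have hb0 : b' ≠ 0 := by rw [hb']; exact div_ne_zero n01 n02
  have hab1 : a' + b' = 1 := by
    rw [ha', hb', ← add_div, div_eq_one_iff_eq n02]; ring
  have hab2 : a' * x 0 + b' * x 2 = x 1 := by
    rw [ha', hb']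
    field_simp
    ring
  let A : Matrix (Fin 2) (Fin 2) L := !![b' * x 2, a' * x 0; b', a']
  have hA : A.det ≠ 0 := by
    rw [Matrix.det_fin_two]
    change b' * x 2 * a' - a' * x 0 * b' ≠ 0
    have : b' * x 2 * a' - a' * x 0 * b' = -(a' * b' * (x 0 - x 2)) := by ring
    rw [this]
    exact neg_ne_zero.2 (mul_ne_zero (mul_ne_zero ha0 hb0) n02)
  have hd0 : d ≠ 0 := by omega
  refine constConj_of_vec A (C (-κ) * X ^ d + C 1) (C (-1) * X ^ d + C 1)
    (a' ^ d * G.eval (x 0)) hA (mul_ne_zero (pow_ne_zero _ ha0) (hx.ne 0)) ?_ ?_ ?_ ?_ ?_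
  · exact natDegree_add_le_of_degree_le (natDegree_C_mul_X_pow_le _ _)
      ((natDegree_C _).le.trans (Nat.zero_le _))
  · exact natDegree_add_le_of_degree_le (natDegree_C_mul_X_pow_le _ _)
      ((natDegree_C _).le.trans (Nat.zero_le _))
  · rw [← coe_mapRingHom]
    apply IsCoprime.map
    refine ⟨C (1 - κ)⁻¹, C (-(1 - κ)⁻¹ * κ), ?_⟩
    have h1 : (1 : k) - κ ≠ 0 := sub_ne_zero.2 (Ne.symm hκne)
    have h2 : C (1 - κ)⁻¹ * (C (-κ) * X ^ d + C 1) + C (-(1 - κ)⁻¹ * κ) * (C (-1) * X ^ d + C 1) =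
        C ((1 - κ)⁻¹ * (1 - κ)) := by
      simp only [C_mul, C_neg, C_sub, C_1]
      ring
    rw [h2, inv_mul_cancel₀ h1, C_1]
  · right
    simp [coeff_X_pow, coeff_one, hd0]
  · intro v
    have hform : ∀ (K : Type) [Field K] [Algebra K L] (s t : K) (u w : L),
        hev (C s * X ^ d + C t) d u w = algebraMap K L s * u ^ d + algebraMap K L t * w ^ d := by
      intro K _ _ s t u w
      by_cases hw : w = 0
      · subst hw
        rw [hev_right_zero, zero_pow hd0, mul_zero, add_zero]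
        congr 2
        simp [coeff_C, hd0]
      · rw [hev_eq _ _ _ _ _ hw]
        · rw [map_add, map_mul, aeval_C, aeval_C, map_pow, aeval_X, div_pow]
          have := pow_ne_zero d hw
          field_simp
        · exact natDegree_add_le_of_degree_le (natDegree_C_mul_X_pow_le _ _)
            ((natDegree_C _).le.trans (Nat.zero_le _))
    have hΦ : ∀ w : Fin 2 → L, fv F G d w =
        ![a * w 0 ^ d + b * w 1 ^ d, c * w 0 ^ d + e * w 1 ^ d] := by
      intro w
      unfold fv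
      rw [hF, hG, hform, hform]
      rfl
    have s0 := hx.step 0
    have s1 := hx.step 1
    have s2 := hx.step 2
    rw [eq_div_iff (hx.ne _), zero_add] at s0
    rw [eq_div_iff (hx.ne _)] at s1 s2
    norm_num at s1 s2
    -- images of the points
    obtain ⟨g0, hg0⟩ : ∃ g0, G.eval (x 0) = g0 := ⟨_, rfl⟩
    obtain ⟨g1, hg1⟩ : ∃ g1, G.eval (x 1) = g1 := ⟨_, rfl⟩
    obtain ⟨g2, hg2⟩ : ∃ g2, G.eval (x 2) = g2 := ⟨_, rfl⟩
    rw [hg0, hevF] at s0
    rw [hg1, hevF] at s1
    rw [hg2, hevF] at s2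
    rw [hg0]
    have hg0' := hg0
    have hg1' := hg1
    have hg2' := hg2
    rw [hevG] at hg0' hg1' hg2'
    -- `p`, `q`, `r`
    have e1 : b' ^ d * g2 + a' ^ d * g0 = g1 := by
      rw [← hg2', ← hg0', ← hg1', ← hab2, hadd, mul_pow, mul_pow]
      have : a' ^ d + b' ^ d = 1 := by rw [← hadd, hab1, one_pow]
      linear_combination e * this
    have e2 : b' ^ d * g2 * x 3 + a' ^ d * g0 * x 1 = g1 * x 2 := by
      have h1 : a' ^ d + b' ^ d = 1 := by rw [← hadd, hab1, one_pow]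
      have h2 : x 1 ^ d = a' ^ d * x 0 ^ d + b' ^ d * x 2 ^ d := by
        rw [← hab2, hadd, mul_pow, mul_pow]
      linear_combination b' ^ d * s2 + a' ^ d * s0 - s1 - a * h2 + b * h1
    have e3 : g1 * (x 3 - x 2) = a' ^ d * g0 * (x 3 - x 1) := by
      linear_combination e2 - x 3 * e1
    have e4 : g1 = a' ^ d * g0 * (b' * (1 - algebraMap k L κ)) := by
      have h5 : b' * (x 0 - x 2) = x 0 - x 1 := by
        rw [hb', div_mul_cancel₀ _ n02]
      have h6 : (b' * (1 - algebraMap k L κ)) * (x 3 - x 2) * ((x 0 - x 2) * (x 1 - x 0)) =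
          (x 3 - x 1) * ((x 0 - x 2) * (x 1 - x 0)) := by
        linear_combination (b' * (x 0 - x 2)) * hκ1 + (x 3 - x 1) * (x 2 - x 0) * h5
      have h7 : (b' * (1 - algebraMap k L κ)) * (x 3 - x 2) = x 3 - x 1 :=
        mul_right_cancel₀ (mul_ne_zero n02 n10) h6
      apply mul_right_cancel₀ n23
      rw [e3, ← h7]
      ring
    rw [hΦ]
    have hfv2 : fv (C (-κ) * X ^ d + C 1) (C (-1) * X ^ d + C 1) d v =
        ![-algebraMap k L κ * v 0 ^ d + v 1 ^ d, - v 0 ^ d + v 1 ^ d] := by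
      unfold fv
      rw [hform, hform]
      simp
    have hA0 : A.mulVec v 0 = b' * x 2 * v 0 + a' * x 0 * v 1 := by
      rw [mulVec_zero']; rfl
    have hA1 : A.mulVec v 1 = b' * v 0 + a' * v 1 := by
      rw [mulVec_one']; rfl
    ext i
    fin_cases i
    · simp only [Fin.zero_eta, Pi.smul_apply, smul_eq_mul]
      rw [hA0, hA1, mulVec_zero' A (fv _ _ d v), hfv2]
      simp only [Matrix.cons_val_zero, Matrix.cons_val_one]
      change a * (b' * x 2 * v 0 + a' * x 0 * v 1) ^ d + b * (b' * v 0 + a' * v 1) ^ d =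
        a' ^ d * g0 * (b' * x 2 * (-algebraMap k L κ * v 0 ^ d + v 1 ^ d) +
          a' * x 0 * (-v 0 ^ d + v 1 ^ d))
      rw [hadd, hadd, mul_pow, mul_pow, mul_pow, mul_pow, mul_pow, mul_pow]
      linear_combination (-(b' ^ d * v 0 ^ d)) * s2 - (a' ^ d * v 1 ^ d) * s0 +
        v 0 ^ d * e2 + (x 2 * v 0 ^ d) * e4 + (a' ^ d * g0 * (v 0 ^ d - v 1 ^ d)) * hab2
    · simp only [Fin.mk_one, Pi.smul_apply, smul_eq_mul]
      rw [hA0, hA1, mulVec_one' A (fv _ _ d v), hfv2]
      simp only [Matrix.cons_val_zero, Matrix.cons_val_one]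
      change c * (b' * x 2 * v 0 + a' * x 0 * v 1) ^ d + e * (b' * v 0 + a' * v 1) ^ d =
        a' ^ d * g0 * (b' * (-algebraMap k L κ * v 0 ^ d + v 1 ^ d) +
          a' * (-v 0 ^ d + v 1 ^ d))
      rw [hadd, hadd, mul_pow, mul_pow, mul_pow, mul_pow, mul_pow, mul_pow]
      linear_combination (b' ^ d * v 0 ^ d) * hg2' + (a' ^ d * v 1 ^ d) * hg0' +
        v 0 ^ d * e1 + (v 0 ^ d) * e4 + (a' ^ d * g0 * (v 0 ^ d - v 1 ^ d)) * hab1

end Pool.Agent.Helper38.DT
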