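import Pool.Agent.Helper38.DT.Defs
import Pool.Agent.Helper45.RatRed

/-!
# Transport of conjugacies and iterates along homomorphisms
-/

set_option autoImplicit false
set_option linter.style.haveILetI false

namespace Pool.Agent.Helper38.DT

open Polynomial Pool.Agent.Helper93.RatODE Pool.Agent.Helper45.FR

/-- `hev` of polynomials and homomorphisms -/
theorem map_hev {K K₂ : Type*} [Field K] [Field K₂] (φ : K →+* K₂) (P : K[X]) (n : ℕ)
    (U W : K[X]) : (hev P n U W).map φ = hev (P.map φ) n (U.map φ) (W.map φ) := by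
  unfold hev
  rw [Polynomial.map_sum]
  refine Finset.sum_congr rfl fun j _ => ?_
  rw [Polynomial.map_mul, Polynomial.map_mul, Polynomial.map_pow, Polynomial.map_pow, coeff_map,
    ← C_eq_algebraMap, ← C_eq_algebraMap, map_C]

/-- `hev` of elements and homomorphisms -/
theorem hev_ringHom {K K₂ : Type*} [Field K] [Field K₂] (φ : K →+* K₂) (P : K[X]) (n : ℕ)
    (u w : K) : φ (hev P n u w) = hev (P.map φ) n (φ u) (φ w) := by
  unfold hev
  rw [map_sum]
  refine Finset.sum_congr rfl fun j _ => ?_
  simp only [map_mul, map_pow, coeff_map, Algebra.algebraMap_self, RingHom.id_apply]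

/-- (iii) iterates and homomorphisms -/
theorem iter_map {K K₂ : Type*} [Field K] [Field K₂] (φ : K →+* K₂) (F G : K[X]) (d : ℕ) (m : ℕ) :
    iter (F.map φ) (G.map φ) d m = ((iter F G d m).1.map φ, (iter F G d m).2.map φ) := by
  induction m with
  | zero => simp [iter]
  | succ m ih =>
    change (hev (F.map φ) d (iter (F.map φ) (G.map φ) d m).1 (iter (F.map φ) (G.map φ) d m).2,
      hev (G.map φ) d (iter (F.map φ) (G.map φ) d m).1 (iter (F.map φ) (G.map φ) d m).2) = _
    rw [ih, ← map_hev, ← map_hev]
    rfl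

/-- transport of a conjugacy along a homomorphism of fields which induces a homomorphism on the
constants -/
theorem ConstConj.map_ringHom {k k₂ K K₂ : Type*} [Field k] [Field k₂] [Field K] [Field K₂]
    [Algebra k K] [Algebra k₂ K₂] (φ₀ : k →+* k₂) (φ : K →+* K₂)
    (hφ : ∀ c, φ (algebraMap k K c) = algebraMap k₂ K₂ (φ₀ c)) {P Q : K[X]} {d : ℕ}
    (h : ConstConj k P Q d) : ConstConj k₂ (P.map φ) (Q.map φ) d := by
  obtain ⟨A, P', Q', c, hA, hc, hP', hQ', hcop, htop, h1, h2⟩ := h
  have hcomp : φ.comp (algebraMap k K) = (algebraMap k₂ K₂).comp φ₀ := RingHom.ext hφ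
  have hmap : ∀ R : k[X], (R.map φ₀).map (algebraMap k₂ K₂) = (R.map (algebraMap k K)).map φ := by
    intro R
    rw [Polynomial.map_map, Polynomial.map_map, hcomp]
  refine ⟨A.map φ, P'.map φ₀, Q'.map φ₀, φ c, ?_, (map_ne_zero φ).2 hc, ?_, ?_, ?_, ?_, ?_, ?_⟩
  · have : (A.map φ).det = φ A.det := by
      simp only [Matrix.det_fin_two, Matrix.map_apply, map_sub, map_mul]
    rw [this]
    exact (map_ne_zero φ).2 hA
  · exact natDegree_map_le.trans hP'
  · exact natDegree_map_le.trans hQ'
  · rw [hmap, hmap]
    have := hcop.map (mapRingHom φ)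
    simpa only [coe_mapRingHom] using this
  · rw [coeff_map, coeff_map]
    rcases htop with h | h
    · left; exact (map_ne_zero φ₀).2 h
    · right; exact (map_ne_zero φ₀).2 h
  · have := congrArg (Polynomial.map φ) h1
    rw [map_hev] at this
    simp only [Polynomial.map_add, Polynomial.map_mul, map_C, map_X, ← hmap] at this
    exact this
  · have := congrArg (Polynomial.map φ) h2
    rw [map_hev] at this
    simp only [Polynomial.map_add, Polynomial.map_mul, map_C, map_X, ← hmap] at this
    exact this

/-- (i) -/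
theorem constConj_of_map_equiv {k E : Type*} [Field k] [Field E] [Algebra k E] (θ : E ≃+* E)
    (θ₀ : k ≃+* k) (hθ : ∀ c, θ (algebraMap k E c) = algebraMap k E (θ₀ c)) {A B : E[X]} {d : ℕ}
    (h : ConstConj k (A.map (θ : E →+* E)) (B.map (θ : E →+* E)) d) : ConstConj k A B d := by
  have h1 := ConstConj.map_ringHom (θ₀.symm : k →+* k) (θ.symm : E →+* E) (by
    intro c
    change θ.symm (algebraMap k E c) = algebraMap k E (θ₀.symm c)
    rw [RingEquiv.symm_apply_eq, hθ, RingEquiv.apply_symm_apply]) h
  have h2 : ∀ R : E[X], (R.map (θ : E →+* E)).map (θ.symm : E →+* E) = R := by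
    intro R
    rw [Polynomial.map_map]
    have : (θ.symm : E →+* E).comp (θ : E →+* E) = RingHom.id E := by
      ext x; simp
    rw [this, Polynomial.map_id]
  rwa [h2, h2] at h1

/-- (ii) -/
theorem constConj_map_algebraMap {k L E : Type*} [Field k] [Field L] [Field E] [Algebra k L]
    [Algebra k E] [Algebra L E] [IsScalarTower k L E] {A B : L[X]} {d : ℕ}
    (h : ConstConj k A B d) :
    ConstConj k (A.map (algebraMap L E)) (B.map (algebraMap L E)) d :=
  ConstConj.map_ringHom (RingHom.id k) (algebraMap L E)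
    (fun c => (IsScalarTower.algebraMap_apply k L E c).symm) h

/-- `IsRatD` and homomorphisms -/
theorem IsRatD.map {K K₂ : Type} [Field K] [Field K₂] {A B : K[X]} {d : ℕ} (h : IsRatD A B d)
    (φ : K →+* K₂) : IsRatD (A.map φ) (B.map φ) d where
  cop := by
    have := h.cop.map (mapRingHom φ)
    simpa only [coe_mapRingHom] using this
  degF := natDegree_map_le.trans h.degF
  degG := natDegree_map_le.trans h.degG
  top := by
    rw [coeff_map, coeff_map]
    rcases h.top with h | h
    · left; exact (map_ne_zero φ).2 h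
    · right; exact (map_ne_zero φ).2 h

/-- iterates are rational functions of degree `d ^ m` -/
theorem IsRatD.iter {K : Type} [Field K] {A B : K[X]} {d : ℕ} (h : IsRatD A B d) (m : ℕ) :
    IsRatD (iter A B d m).1 (iter A B d m).2 (d ^ m) where
  cop := iter_isCoprime h.cop h.degF h.degG h.top m
  degF := (iter_natDegree m).1
  degG := (iter_natDegree m).2
  top := iter_coeff h.cop h.degF h.degG h.top m

end Pool.Agent.Helper38.DT
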